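import Mathlib
import Pool.Agent.H12.RegSeq

set_option autoImplicit false

namespace Pool.Agent.Results.MP_98b1c4_co.PairGap

open Pool.Agent.H12.RegSeq

theorem reg8 : RegA [62, 31, 15, 8, 4, 2, 1, 1] :=
  .front _ 7 (.front _ 6 (.front _ 4 (.front _ 4 (.front _ 3 (.front _ 2 .base
    (by decide) (by decide)) (by decide) (by decide)) (by decide) (by decide))
    (by decide) (by decide)) (by decide) (by decide)) (by decide) (by decide)

theorem reg10 : RegA [62, 57, 4, 1, 1, 1, 1, 8, 16, 25] :=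
  .front [57, 4, 1, 1, 1, 1, 8, 16, 25] 3 (.front [4, 1, 1, 1, 1, 8, 16, 25] 8
    (.back [4, 1, 1, 1, 1, 8, 16] 4 (.back [4, 1, 1, 1, 1, 8] 0 (.back [4, 1, 1, 1, 1] 0
    (.front [1, 1, 1, 1] 4 (.front [1, 1, 1] 1 (.front [1, 1] 1 .base
    (by decide) (by decide)) (by decide) (by decide)) (by decide) (by decide))
    (by decide)) (by decide)) (by decide)) (by decide) (by decide)) (by decide) (by decide)

theorem a_pair : a [57, 62] = 10 :=
  a_eq (N := 7) (by decide) (by decide +kernel) reg10 rfl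
    ⟨[62, 57], by decide, by decide⟩

theorem a_single : a [62] ≤ 8 := by
  have hm : 8 ∈ {n | ∃ d, RegA d ∧ d.length = n ∧ Has d [62]} :=
    ⟨_, reg8, rfl, [62], by decide, by decide⟩
  exact Nat.sInf_le hm

theorem result :
    ¬ ∀ k₁ k₂ : ℕ, 0 < k₁ → k₁ ≤ k₂ → a [k₁, k₂] ≤ a [k₂] + 1 := by
  intro h
  have h1 := h 57 62 (by decide) (by decide)
  have h2 := a_pair
  have h3 := a_single
  omega

end Pool.Agent.Results.MP_98b1c4_co.PairGap
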